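import Pool.Agent.Q14.LQS.Rel

/-!
# Project LQ of helper283: job CR1A
-/

set_option autoImplicit false

namespace Pool.Agent.Q14.LQS

open NumberField IsDedekindDomain Filter Topology Finset
open Pool.Agent.Q283.LQ

section Q

variable {F L : Type} [Field F] [NumberField F] [Field L] [NumberField L] [Algebra F L]

theorem exists_conj (hdeg : Module.finrank F L = 2) :
    ∃ σ : L ≃ₐ[F] L, ∀ x, algebraMap F L (Algebra.norm F x) = x * σ x := by
  classical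
  have hq : Algebra.IsQuadraticExtension F L := ⟨hdeg⟩
  have hG : IsGalois F L := inferInstance
  have hc : Fintype.card (L ≃ₐ[F] L) = 2 := by
    rw [← Nat.card_eq_fintype_card, IsGalois.card_aut_eq_finrank, hdeg]
  obtain ⟨a, b, hab, huniv⟩ := Finset.card_eq_two.1 ((Finset.card_univ).trans hc)
  have h1 : (1 : L ≃ₐ[F] L) ∈ (univ : Finset (L ≃ₐ[F] L)) := Finset.mem_univ _
  rw [huniv, Finset.mem_insert, Finset.mem_singleton] at h1
  have key : ∀ σ : L ≃ₐ[F] L, σ ≠ 1 → (univ : Finset (L ≃ₐ[F] L)) = {1, σ} →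
      ∀ x, algebraMap F L (Algebra.norm F x) = x * σ x := by
    intro σ hσ hu x
    rw [Algebra.norm_eq_prod_automorphisms]
    have : ∏ τ : L ≃ₐ[F] L, τ x = ∏ τ ∈ ({1, σ} : Finset (L ≃ₐ[F] L)), τ x := by rw [← hu]
    rw [this, Finset.prod_pair (Ne.symm hσ)]
    rfl
  rcases h1 with h1 | h1
  · exact ⟨b, key b (fun h => hab (by rw [← h1, h])) (by rw [h1]; exact huniv)⟩
  · exact ⟨a, key a (fun h => hab (by rw [← h1, h])) (by rw [h1, Finset.pair_comm]; exact huniv)⟩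

/-- the conjugation on units -/
noncomputable def sU (σ : L ≃ₐ[F] L) : (𝓞 L)ˣ →* (𝓞 L)ˣ :=
  Units.map ((RingOfIntegers.mapAlgEquiv σ : 𝓞 L ≃ₐ[𝓞 F] 𝓞 L) : 𝓞 L →* 𝓞 L)

theorem sU_coe (σ : L ≃ₐ[F] L) (x : (𝓞 L)ˣ) : ((sU σ x : 𝓞 L) : L) = σ ((x : 𝓞 L) : L) := rfl

variable (F) in
/-- the norm on units -/
noncomputable def nU : (𝓞 L)ˣ →* (𝓞 F)ˣ := Units.map (RingOfIntegers.norm F : 𝓞 L →* 𝓞 F)

theorem nU_coe (x : (𝓞 L)ˣ) : ((nU F x : 𝓞 F) : F) = Algebra.norm F ((x : 𝓞 L) : L) :=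
  RingOfIntegers.coe_norm F (x : 𝓞 L)

theorem nU_eq_one {x : (𝓞 L)ˣ} : nU F x = 1 ↔ Algebra.norm F ((x : 𝓞 L) : L) = 1 := by
  rw [← nU_coe, Units.ext_iff]
  constructor
  · intro h
    rw [h]
    simp
  · intro h
    apply RingOfIntegers.ext
    rw [h]
    simp

/-- the embedding of units -/
noncomputable def eU : (𝓞 F)ˣ →* (𝓞 L)ˣ := Units.map ((algebraMap (𝓞 F) (𝓞 L)) : 𝓞 F →* 𝓞 L)

theorem eU_nU {σ : L ≃ₐ[F] L} (hσ : ∀ x, algebraMap F L (Algebra.norm F x) = x * σ x)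
    (x : (𝓞 L)ˣ) : (eU (nU F x) : (𝓞 L)ˣ) = x * sU σ x := by
  apply Units.ext
  apply RingOfIntegers.ext
  have h1 := hσ ((x : 𝓞 L) : L)
  rw [← nU_coe] at h1
  exact h1

theorem sU_cgs (σ : L ≃ₐ[F] L) (I : Ideal (𝓞 F)) (N : ℕ) (x : (𝓞 L)ˣ)
    (hx : x ∈ cgs (I.map (algebraMap (𝓞 F) (𝓞 L)) ^ N)) :
    sU σ x ∈ cgs (I.map (algebraMap (𝓞 F) (𝓞 L)) ^ N) := by
  rw [mem_cgs] at *
  have e : ((sU σ x : (𝓞 L)ˣ) : 𝓞 L) - 1 =
      (RingOfIntegers.mapAlgEquiv σ : 𝓞 L ≃ₐ[𝓞 F] 𝓞 L) ((x : 𝓞 L) - 1) := by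
    rw [map_sub, map_one]
    rfl
  rw [e, ← Ideal.map_pow]
  rw [← Ideal.map_pow] at hx
  have h1 : (I ^ N).map (algebraMap (𝓞 F) (𝓞 L)) ≤ ((I ^ N).map (algebraMap (𝓞 F) (𝓞 L))).comap
      ((RingOfIntegers.mapAlgEquiv σ : 𝓞 L ≃ₐ[𝓞 F] 𝓞 L) : 𝓞 L →+* 𝓞 L) := by
    rw [Ideal.map_le_iff_le_comap]
    intro y hy
    rw [Ideal.mem_comap, Ideal.mem_comap]
    have e2 : ((RingOfIntegers.mapAlgEquiv σ : 𝓞 L ≃ₐ[𝓞 F] 𝓞 L) : 𝓞 L →+* 𝓞 L)
        (algebraMap (𝓞 F) (𝓞 L) y) = algebraMap (𝓞 F) (𝓞 L) y :=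
      AlgEquiv.commutes (RingOfIntegers.mapAlgEquiv σ : 𝓞 L ≃ₐ[𝓞 F] 𝓞 L) y
    rw [e2]
    exact Ideal.mem_map_of_mem _ hy
  exact h1 hx

theorem nU_cgs {σ : L ≃ₐ[F] L} (hσ : ∀ x, algebraMap F L (Algebra.norm F x) = x * σ x)
    (I : Ideal (𝓞 F)) (N : ℕ) (x : (𝓞 L)ˣ)
    (hx : x ∈ cgs (I.map (algebraMap (𝓞 F) (𝓞 L)) ^ N)) : nU F x ∈ cgs (I ^ N) := by
  have h1 := (cgs (I.map (algebraMap (𝓞 F) (𝓞 L)) ^ N)).mul_mem hx (sU_cgs σ I N x hx)
  rw [← eU_nU hσ, mem_cgs, ← Ideal.map_pow] at h1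
  rw [mem_cgs, ← Ideal.comap_map_eq_self_of_faithfullyFlat (A := 𝓞 F) (B := 𝓞 L) (I ^ N),
    Ideal.mem_comap, map_sub, map_one]
  exact h1

end Q

theorem cr1a (hLA2 : S_LA2) : S_CR1A := by
  intro F L _ _ _ _ _ I _ hdeg s t hF hL
  classical
  obtain ⟨σ, hσ⟩ := exists_conj (F := F) (L := L) hdeg
  obtain ⟨n, ε, hε, a, ha, hrel⟩ := hL
  obtain ⟨q, δ, hFF, hFF0, -, hδ, hFspan⟩ := unit_basis (K := F) ⊤
  obtain ⟨p, θ, h, hh0, hθE, hθ, hspan⟩ := unit_basis (K := L) (nU F : (𝓞 L)ˣ →* (𝓞 F)ˣ).ker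
  -- the quotient map
  let dU : (𝓞 L)ˣ →* (𝓞 L)ˣ := MonoidHom.id _ / sU σ
  have hdU : ∀ x, dU x = x / sU σ x := fun x => rfl
  have hdker : ∀ x, dU x ∈ (nU F : (𝓞 L)ˣ →* (𝓞 F)ˣ).ker := by
    intro x
    rw [MonoidHom.mem_ker, hdU, map_div, div_eq_one]
    apply Units.ext
    apply RingOfIntegers.ext
    rw [nU_coe, nU_coe, sU_coe, Algebra.norm_eq_of_algEquiv]
  have hdcg : ∀ N x, x ∈ cgs (I.map (algebraMap (𝓞 F) (𝓞 L)) ^ N) →
      dU x ∈ cgs (I.map (algebraMap (𝓞 F) (𝓞 L)) ^ N) := by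
    intro N x hx
    rw [hdU]
    exact (cgs (I.map (algebraMap (𝓞 F) (𝓞 L)) ^ N)).div_mem hx (sU_cgs σ I N x hx)
  have hC : ∀ i, ∃ C : Fin q → ℤ, nU F (ε i) ^ hFF = ∏ j, δ j ^ C j := by
    intro i
    obtain ⟨c, hc⟩ := hFspan (nU F (ε i)) (Subgroup.mem_top _)
    refine ⟨fun j => c j * hFF, ?_⟩
    rw [hc, ← Finset.prod_pow]
    refine Finset.prod_congr rfl fun j _ => ?_
    rw [zpow_mul, zpow_natCast]
  have hC' : ∀ i, ∃ C : Fin p → ℤ, dU (ε i) ^ h = ∏ j, θ j ^ C j := by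
    intro i
    obtain ⟨c, hc⟩ := hspan (dU (ε i)) (hdker _)
    refine ⟨fun j => c j * h, ?_⟩
    rw [hc, ← Finset.prod_pow]
    refine Finset.prod_congr rfl fun j _ => ?_
    rw [zpow_mul, zpow_natCast]
  choose C hC using hC
  choose C' hC' using hC'
  -- relations
  have hspanrel : Submodule.span ℤ_[2] (Set.range a) ≤
      relMod (I.map (algebraMap (𝓞 F) (𝓞 L))) ε := by
    rw [Submodule.span_le]
    rintro _ ⟨j, rfl⟩
    exact hrel j
  have hrelF : ∀ b, Pool.Agent.Q283.LQ.Rel L (I.map (algebraMap (𝓞 F) (𝓞 L))) ε b →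
      Pool.Agent.Q283.LQ.Rel F I δ (lm C b) := fun b hb =>
    rel_lm hFF C hC (rel_hom (nU F) (fun N x hx => nU_cgs hσ I N x hx) hb)
  have hrelL : ∀ b, Pool.Agent.Q283.LQ.Rel L (I.map (algebraMap (𝓞 F) (𝓞 L))) ε b →
      Pool.Agent.Q283.LQ.Rel L (I.map (algebraMap (𝓞 F) (𝓞 L))) θ (lm C' b) := fun b hb =>
    rel_lm h C' hC' (rel_hom dU hdcg hb)
  obtain ⟨b, hb, hb2⟩ := hLA2 s t n q a ha (lm C) (by
    rintro ⟨x, hx, hx2⟩
    exact hF ⟨q, δ, hδ, fun i => lm C (x i), hx2, fun i => hrelF _ (hspanrel (hx i))⟩)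
  refine ⟨p, θ, h, hh0, fun i => nU_eq_one.1 (hθE i), hθ, fun η hη => ?_, fun i => lm C' (b i), ?_,
    fun j => hrelL _ (hspanrel (hb2 j).1)⟩
  · exact hspan η (nU_eq_one.2 hη)
  · have hdis : Disjoint (Submodule.span ℤ_[2] (Set.range b)) (LinearMap.ker (lm C')) := by
      rw [Submodule.disjoint_def]
      intro x hx hx2
      have h1 : Submodule.span ℤ_[2] (Set.range b) ≤ LinearMap.ker (lm C) := by
        rw [Submodule.span_le]
        rintro _ ⟨j, rfl⟩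
        exact (hb2 j).2
      have h2 : lm C x = 0 := h1 hx
      have h3 : lm C' x = 0 := hx2
      refine inj_padic (ι := Fin q ⊕ Fin p) (fun i => Sum.elim (C i) (C' i)) ?_ x ?_
      · intro c hc
        have hc1 : ∀ j, ∑ i, c i * C i j = 0 := fun j => hc (Sum.inl j)
        have hc2 : ∀ j, ∑ i, c i * C' i j = 0 := fun j => hc (Sum.inr j)
        obtain ⟨X, hX⟩ : ∃ X, X = ∏ i, ε i ^ c i := ⟨_, rfl⟩
        have g1 : nU F X ^ hFF = 1 := by
          have e1 : nU F X = ∏ i, nU F (ε i) ^ c i := by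
            rw [hX, map_prod]
            exact Finset.prod_congr rfl fun i _ => map_zpow _ _ _
          rw [e1, prod_pow_comb _ δ hFF C hC]
          refine Finset.prod_eq_one fun j _ => ?_
          rw [hc1, zpow_zero]
        have g2 : dU X ^ h = 1 := by
          have e1 : dU X = ∏ i, dU (ε i) ^ c i := by
            rw [hX, map_prod]
            exact Finset.prod_congr rfl fun i _ => map_zpow _ _ _
          rw [e1, prod_pow_comb _ θ h C' hC']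
          refine Finset.prod_eq_one fun j _ => ?_
          rw [hc2, zpow_zero]
        have g3 : X ^ 2 = eU (nU F X) * dU X := by
          rw [eU_nU hσ, hdU, sq]
          rw [mul_div_assoc', mul_right_comm, mul_div_assoc, div_self', mul_one]
        have g4 : X ^ (2 * (hFF * h)) = 1 := by
          rw [pow_mul, g3, mul_pow]
          have e1 : (eU (nU F X) : (𝓞 L)ˣ) ^ (hFF * h) = 1 := by
            rw [pow_mul, ← map_pow, g1, map_one, one_pow]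
          have e2 : dU X ^ (hFF * h) = 1 := by
            rw [mul_comm, pow_mul, g2, one_pow]
          rw [e1, e2, mul_one]
        have g5 : ∏ i, ε i ^ (c i * ((2 * (hFF * h) : ℕ) : ℤ)) = 1 := by
          rw [← g4, hX, ← Finset.prod_pow]
          refine Finset.prod_congr rfl fun i _ => ?_
          rw [zpow_mul, zpow_natCast]
        have g6 := hε _ g5
        funext i
        have g7 := congrFun g6 i
        have g8 : ((2 * (hFF * h) : ℕ) : ℤ) ≠ 0 := by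
          have : 0 < 2 * (hFF * h) := by positivity
          exact_mod_cast this.ne'
        exact (mul_eq_zero.1 g7).resolve_right g8
      · rintro (j | j)
        · exact congrFun h2 j
        · exact congrFun h3 j
    exact hb.map hdis

end Pool.Agent.Q14.LQS
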