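import Pool.Agent.Q14.LQS.Half
import Pool.Agent.Q14.LQS.Cr1a

/-!
# Project LQ of helper283: job CR2L

A unit `w` of relative norm `1` such that the powers `(w η²)^M` come `I`-adically arbitrarily close to `1` has at the
places `v` dividing `I` the class of a torsion point of the torus.
-/

set_option autoImplicit false

namespace Pool.Agent.Q14.LQS

open NumberField IsDedekindDomain Filter Topology Finset
open Pool.Agent.Q283.LQ Pool.Agent.Y682 Pool.Agent.Q198.LQ

section G

variable {F L : Type} [Field F] [NumberField F] [Field L] [NumberField L] [Algebra F L]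

theorem conj_root {σ : L ≃ₐ[F] L} (hσ : ∀ x, algebraMap F L (Algebra.norm F x) = x * σ x) {d : F}
    (hd : ¬ IsSquare d) {ρ : L} (hρ : ρ ^ 2 = algebraMap F L d) : σ ρ = -ρ := by
  have h1 : (σ ρ) ^ 2 = ρ ^ 2 := by
    rw [← map_pow, hρ, AlgEquiv.commutes]
  rcases sq_eq_sq_iff_eq_or_eq_neg.1 h1 with h | h
  · exfalso
    apply hd
    have h2 := hσ (1 + ρ)
    rw [map_add σ, map_one σ, h] at h2
    have h3 : algebraMap F L ((Algebra.norm F (1 + ρ) - 1 - d) / 2) = ρ := by
      rw [map_div₀, map_sub, map_sub, h2, map_one, ← hρ, map_ofNat]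
      field_simp
      ring
    refine ⟨(Algebra.norm F (1 + ρ) - 1 - d) / 2, ?_⟩
    apply (algebraMap F L).injective
    rw [map_mul, h3, ← sq, hρ]
  · exact h

theorem norm_pt {σ : L ≃ₐ[F] L} (hσ : ∀ x, algebraMap F L (Algebra.norm F x) = x * σ x) {d : F}
    (hd : ¬ IsSquare d) {ρ : L} (hρ : ρ ^ 2 = algebraMap F L d) (a b : F) :
    Algebra.norm F (pt ρ a b) = a ^ 2 - d * b ^ 2 := by
  apply (algebraMap F L).injective
  rw [hσ]
  unfold pt
  rw [map_add, map_mul, AlgEquiv.commutes, AlgEquiv.commutes, conj_root hσ hd hρ, map_sub, map_mul, map_pow,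
    map_pow, ← hρ]
  ring

theorem trace_pt (hdeg : Module.finrank F L = 2) {σ : L ≃ₐ[F] L}
    (hσ : ∀ x, algebraMap F L (Algebra.norm F x) = x * σ x) {d : F}
    (hd : ¬ IsSquare d) {ρ : L} (hρ : ρ ^ 2 = algebraMap F L d) (a b : F) :
    Algebra.trace F L (pt ρ a b) = 2 * a := by
  have h0 : Algebra.trace F L ρ = 0 := by
    have h1 := Algebra.trace_eq_of_algEquiv (A := F) σ ρ
    rw [conj_root hσ hd hρ, map_neg] at h1
    linear_combination (-1 / 2 : F) * h1
  unfold pt
  rw [map_add, Algebra.trace_algebraMap, hdeg, ← Algebra.smul_def, map_smul, h0, smul_zero, add_zero, nsmul_eq_mul,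
    Nat.cast_ofNat]

theorem exists_pt (hdeg : Module.finrank F L = 2) {d : F}
    (hd : ¬ IsSquare d) {ρ : L} (hρ : ρ ^ 2 = algebraMap F L d) (u : L) : ∃ a b : F, u = pt ρ a b := by
  have hli : LinearIndependent F ![(1 : L), ρ] := by
    rw [LinearIndependent.pair_iff]
    intro s t h
    have ht : t = 0 := by
      by_contra ht
      apply hd
      refine ⟨-s / t, ?_⟩
      apply (algebraMap F L).injective
      have ht' : algebraMap F L t ≠ 0 := (map_ne_zero _).2 ht
      have h1 : ρ = algebraMap F L (-s / t) := by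
        rw [map_div₀, map_neg]
        rw [Algebra.smul_def, Algebra.smul_def, mul_one] at h
        field_simp
        linear_combination h
      rw [← hρ, map_mul, ← h1, sq]
    refine ⟨?_, ht⟩
    rw [ht, zero_smul, add_zero, Algebra.smul_def, mul_one] at h
    exact (map_eq_zero _).1 h
  have hspan : Submodule.span F (Set.range ![(1 : L), ρ]) = ⊤ :=
    hli.span_eq_top_of_card_eq_finrank (by rw [hdeg, Fintype.card_fin])
  have hu : u ∈ Submodule.span F (Set.range ![(1 : L), ρ]) := by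
    rw [hspan]
    exact Submodule.mem_top
  rw [Matrix.range_cons, Matrix.range_cons, Matrix.range_empty, Set.union_empty, Set.singleton_union,
    Submodule.mem_span_pair] at hu
  obtain ⟨a, b, h⟩ := hu
  refine ⟨a, b, ?_⟩
  rw [← h, Algebra.smul_def, Algebra.smul_def, mul_one]
  rfl

/-- traces of elements of `(I 𝓞 L)^N` -/
theorem tr_val (I : Ideal (𝓞 F)) (v : HeightOneSpectrum (𝓞 F)) (hv : I ≤ v.asIdeal) (N : ℕ) (y : 𝓞 L)
    (hy : y ∈ I.map (algebraMap (𝓞 F) (𝓞 L)) ^ N) :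
    v.valuation F (Algebra.trace F L (y : L)) ≤ WithZero.exp (-(N : ℤ)) := by
  rw [← Ideal.map_pow] at hy
  have key : ∀ b : 𝓞 L, v.valuation F (Algebra.trace F L (((b * y : 𝓞 L)) : L)) ≤ WithZero.exp (-(N : ℤ)) := by
    unfold Ideal.map at hy
    induction hy using Submodule.span_induction with
    | mem x hx =>
      intro b
      obtain ⟨a, ha, rfl⟩ := hx
      have e1 : ((b * algebraMap (𝓞 F) (𝓞 L) a : 𝓞 L) : L) = (a : F) • (b : L) := by
        rw [Algebra.smul_def, mul_comm]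
        rfl
      have hint : IsIntegral ℤ (Algebra.trace F L (b : L)) := Algebra.isIntegral_trace (RingOfIntegers.isIntegral_coe b)
      have e2 : v.valuation F (Algebra.trace F L (b : L)) ≤ 1 := by
        have := v.valuation_le_one (K := F) (⟨Algebra.trace F L (b : L), hint⟩ : 𝓞 F)
        exact this
      have e3 : v.valuation F ((a : 𝓞 F) : F) ≤ WithZero.exp (-(N : ℤ)) := by
        have h1 : a ∈ v.asIdeal ^ N := Ideal.pow_right_mono hv N ha
        have h2 := (v.intValuation_le_pow_iff_mem a N).2 h1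
        have h3 := v.valuation_of_algebraMap (K := F) a
        rw [← h3] at h2
        exact h2
      rw [e1, map_smul, smul_eq_mul, map_mul]
      exact (mul_le_of_le_one_right' e2).trans e3
    | zero =>
      intro b
      rw [mul_zero]
      simp
    | add x z _ _ hx hz =>
      intro b
      have e1 : ((b * (x + z) : 𝓞 L) : L) = ((b * x : 𝓞 L) : L) + ((b * z : 𝓞 L) : L) := by
        rw [mul_add]
        rfl
      rw [e1, map_add]
      exact (Valuation.map_add _ _ _).trans (max_le (hx b) (hz b))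
    | smul c x _ hx =>
      intro b
      rw [smul_eq_mul, ← mul_assoc]
      exact hx (b * c)
  have := key 1
  rwa [one_mul] at this

omit [NumberField F] in
theorem iterate_map {K : Type} [Field K] [Algebra F K] (c : ℕ) (x : F) :
    algebraMap F K ((fun t : F => 2 * t ^ 2 - 1)^[c] x) = (fun t : K => 2 * t ^ 2 - 1)^[c] (algebraMap F K x) := by
  induction c with
  | zero => rfl
  | succ c ih =>
    rw [Function.iterate_succ_apply', Function.iterate_succ_apply', ← ih, map_sub, map_mul, map_pow, map_one,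
      map_ofNat]

theorem cr2l_raw (hdeg : Module.finrank F L = 2) {d : F} (hroot : ∃ x : L, x ^ 2 = algebraMap F L d)
    (hd : ¬ IsSquare d) (I : Ideal (𝓞 F)) (v : HeightOneSpectrum (𝓞 F)) (hv : I ≤ v.asIdeal)
    (w : (𝓞 L)ˣ) (M : ℕ) (hM : 0 < M) (hw : Algebra.norm F ((w : 𝓞 L) : L) = 1) (hw1 : w ≠ -1)
    (H : ∀ N : ℕ, ∃ η : (𝓞 L)ˣ, Algebra.norm F ((η : 𝓞 L) : L) = 1 ∧
      (((w * η ^ 2) ^ M : (𝓞 L)ˣ) : 𝓞 L) - 1 ∈ I.map (algebraMap (𝓞 F) (𝓞 L)) ^ N) :
    AT v (-d) (2 + Algebra.trace F L ((w : 𝓞 L) : L)) := by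
  obtain ⟨ρ, hρ⟩ := hroot
  obtain ⟨σ, hσ⟩ := exists_conj (F := F) (L := L) hdeg
  have hd0 : d ≠ 0 := by
    rintro rfl
    exact hd ⟨0, by simp⟩
  set D : F := -d with hD
  have hρD : ρ ^ 2 = -algebraMap F L D := by rw [hρ, hD, map_neg, neg_neg]
  obtain ⟨c, M', hodd, rfl⟩ := Nat.exists_eq_two_pow_mul_odd hM.ne'
  obtain ⟨m, rfl⟩ := hodd
  have hv2 := vv_two_ne (F := F) v
  obtain ⟨j, hj⟩ := exists_exp (pow_ne_zero (2 * (c + 1) + 1 + 1) hv2)
  obtain ⟨η, hη1, hη2⟩ := H (j.natAbs + 1)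
  set η' : (𝓞 L)ˣ := w ^ m * η ^ (2 * m + 1) with hη'
  have hn' : Algebra.norm F ((η' : 𝓞 L) : L) = 1 := by
    have e1 : ((η' : 𝓞 L) : L) = ((w : 𝓞 L) : L) ^ m * ((η : 𝓞 L) : L) ^ (2 * m + 1) := by
      rw [hη']
      push_cast
      rfl
    rw [e1, map_mul, map_pow, map_pow, hw, hη1, one_pow, one_pow, one_mul]
  obtain ⟨a, b, hwp⟩ := exists_pt hdeg hd hρ ((w : 𝓞 L) : L)
  obtain ⟨h, k, hep⟩ := exists_pt hdeg hd hρ ((η' : 𝓞 L) : L)
  have hab : a ^ 2 + D * b ^ 2 = 1 := by
    have h1 := norm_pt hσ hd hρ a b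
    rw [← hwp, hw] at h1
    rw [hD]
    linear_combination -h1
  have hhk : h ^ 2 + D * k ^ 2 = 1 := by
    have h1 := norm_pt hσ hd hρ h k
    rw [← hep, hn'] at h1
    rw [hD]
    linear_combination -h1
  have htr : Algebra.trace F L ((w : 𝓞 L) : L) = 2 * a := by
    rw [hwp, trace_pt hdeg hσ hd hρ]
  set x0 := a * (h * h - D * k * k) - D * b * (h * k + h * k) with hx0
  set z0 := a * (h * k + h * k) + (h * h - D * k * k) * b with hz0
  have hh := norm_mul hhk hhk
  have h0 : x0 ^ 2 + D * z0 ^ 2 = 1 := norm_mul hab hh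
  have hpt : pt ρ x0 z0 = pt ρ a b * (pt ρ h k * pt ρ h k) := by
    rw [pt_mul hρD h k h k, pt_mul hρD a b]
  have hpow : ((((w * η ^ 2) ^ (2 ^ c * (2 * m + 1)) : (𝓞 L)ˣ) : 𝓞 L) : L) = pt ρ x0 z0 ^ 2 ^ c := by
    rw [hpt, ← hwp, ← hep]
    have e1 : (w * η ^ 2) ^ (2 ^ c * (2 * m + 1)) = (w * (η' * η')) ^ 2 ^ c := by
      rw [mul_comm (2 ^ c), pow_mul]
      congr 1
      rw [hη']
      rw [mul_pow, ← pow_mul]
      have e3 : w ^ (2 * m + 1) = w * (w ^ m * w ^ m) := by
        rw [← pow_add, ← pow_succ']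
        congr 1
        omega
      have e4 : η ^ (2 * (2 * m + 1)) = η ^ (2 * m + 1) * η ^ (2 * m + 1) := by
        rw [← pow_add]
        congr 1
        omega
      rw [e3, e4]
      ac_rfl
    rw [e1]
    push_cast
    rfl
  obtain ⟨y, hy1, hy2⟩ := pt_pow hρD c x0 z0 h0
  have hval : v.valuation F (2 * ((fun t : F => 2 * t ^ 2 - 1)^[c] x0 - 1)) ≤
      WithZero.exp (-((j.natAbs + 1 : ℕ) : ℤ)) := by
    have h1 := tr_val I v hv _ _ hη2
    have e1 : ((((((w * η ^ 2) ^ (2 ^ c * (2 * m + 1)) : (𝓞 L)ˣ) : 𝓞 L) - 1 : 𝓞 L)) : L) =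
        pt ρ x0 z0 ^ 2 ^ c - 1 := by
      rw [← hpow]
      rfl
    rw [e1, hy2, map_sub, trace_pt hdeg hσ hd hρ] at h1
    have e2 : Algebra.trace F L (1 : L) = 2 := by
      have h3 := trace_pt hdeg hσ hd hρ 1 0
      rw [mul_one] at h3
      rw [← h3]
      congr 1
      simp [pt]
    rw [e2] at h1
    have e3 : 2 * ((fun t : F => 2 * t ^ 2 - 1)^[c] x0 - 1) = 2 * (fun t : F => 2 * t ^ 2 - 1)^[c] x0 - 2 := by ring
    rw [e3]
    exact h1
  -- the completion
  have hab' : (algebraMap F (v.adicCompletion F) a) ^ 2 + (algebraMap F (v.adicCompletion F) D) *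
      (algebraMap F (v.adicCompletion F) b) ^ 2 = 1 := by
    rw [← map_pow, ← map_pow, ← map_mul, ← map_add, hab, map_one]
  have hhk' : (algebraMap F (v.adicCompletion F) h) ^ 2 + (algebraMap F (v.adicCompletion F) D) *
      (algebraMap F (v.adicCompletion F) k) ^ 2 = 1 := by
    rw [← map_pow, ← map_pow, ← map_mul, ← map_add, hhk, map_one]
  obtain ⟨x, z, hxz, hc, s, r, hsr, hsq⟩ := exists_torsion v hab' hhk' c (by
    have e1 : (fun t : v.adicCompletion F => 2 * t ^ 2 - 1)^[c] (algebraMap F (v.adicCompletion F) a *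
          (algebraMap F (v.adicCompletion F) h * algebraMap F (v.adicCompletion F) h -
            algebraMap F (v.adicCompletion F) D * algebraMap F (v.adicCompletion F) k *
            algebraMap F (v.adicCompletion F) k) -
          algebraMap F (v.adicCompletion F) D * algebraMap F (v.adicCompletion F) b *
          (algebraMap F (v.adicCompletion F) h * algebraMap F (v.adicCompletion F) k +
            algebraMap F (v.adicCompletion F) h * algebraMap F (v.adicCompletion F) k)) - 1 =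
        algebraMap F (v.adicCompletion F) ((fun t : F => 2 * t ^ 2 - 1)^[c] x0 - 1) := by
      rw [map_sub, iterate_map, map_one, hx0]
      simp only [map_sub, map_mul, map_add]
    rw [e1]
    have h3 : vv v 2 * vv v (algebraMap F (v.adicCompletion F) ((fun t : F => 2 * t ^ 2 - 1)^[c] x0 - 1)) <
        vv v 2 * vv v 2 ^ (2 * (c + 1) + 1) := by
      rw [← pow_succ', hj]
      have e2 : (2 : v.adicCompletion F) = algebraMap F _ 2 := by rw [map_ofNat]
      rw [← map_mul]
      conv_lhs => rw [e2]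
      rw [← map_mul, vv_coe]
      refine hval.trans_lt ?_
      rw [WithZero.exp_lt_exp]
      have h9 : -(j.natAbs : ℤ) ≤ j := by omega
      have h10 : ((j.natAbs + 1 : ℕ) : ℤ) = (j.natAbs : ℤ) + 1 := Nat.cast_succ _
      rw [h10]
      linarith
    exact lt_of_mul_lt_mul_left h3 zero_le)
  have hD0 : algebraMap F (v.adicCompletion F) D ≠ 0 := (map_ne_zero _).2 (neg_ne_zero.2 hd0)
  have ha1 : a ≠ -1 := by
    rintro rfl
    apply hw1
    have h3 : D * b ^ 2 = 0 := by linear_combination hab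
    have h4 : b = 0 := by
      rcases mul_eq_zero.1 h3 with h5 | h5
      · exact absurd h5 (neg_ne_zero.2 hd0)
      · exact (pow_eq_zero_iff two_ne_zero).1 h5
    apply Units.ext
    apply RingOfIntegers.ext
    rw [hwp, h4]
    simp [pt]
  have hκ : 2 + 2 * a ≠ 0 := by
    intro h3
    apply ha1
    linear_combination (1 / 2 : F) * h3
  rw [htr, at_iff]
  refine ⟨hκ, x, z, hxz, ⟨c, hc⟩, ?_⟩
  have hκ' : algebraMap F (v.adicCompletion F) (2 + 2 * a) ≠ 0 := (map_ne_zero _).2 hκ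
  have hCl : Cl (algebraMap F (v.adicCompletion F) D) (algebraMap F (v.adicCompletion F) a)
      (algebraMap F (v.adicCompletion F) (2 + 2 * a)) := by
    refine Or.inl ⟨?_, algebraMap F (v.adicCompletion F) (2 + 2 * a), ?_⟩
    · intro h3
      apply ha1
      apply (algebraMap F (v.adicCompletion F)).injective
      rw [h3, map_neg, map_one]
    · have e : 2 + 2 * algebraMap F (v.adicCompletion F) a = algebraMap F (v.adicCompletion F) (2 + 2 * a) := by
        rw [map_add, map_mul, map_ofNat]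
      rw [e]
  by_cases hx : x = -1
  · refine Or.inr ⟨hx, ?_⟩
    exact cl_sq hD0 (two_ne' v) hκ' hD0 hab' hxz hsr hsq hCl (Or.inr ⟨hx, algebraMap F (v.adicCompletion F) D, rfl⟩)
  · refine Or.inl ⟨hx, ?_⟩
    have h3 : 2 + 2 * x ≠ 0 := by
      intro h4
      apply hx
      have : 2 * (x + 1) = 0 := by linear_combination h4
      have := (mul_eq_zero.1 this).resolve_left (two_ne' v)
      linear_combination this
    exact cl_sq hD0 (two_ne' v) hκ' h3 hab' hxz hsr hsq hCl (Or.inl ⟨hx, 2 + 2 * x, rfl⟩)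

end G

/-- `S_CR2L` for `d` which is not a square of `F` -/
theorem cr2l : ∀ (F L : Type) [Field F] [NumberField F] [Field L] [NumberField L] [Algebra F L] (d : F),
    Quad F L d → ¬ IsSquare d → ∀ I : Ideal (𝓞 F), (2 : 𝓞 F) ∈ I → ∀ v : HeightOneSpectrum (𝓞 F), I ≤ v.asIdeal →
    ∀ (w : (𝓞 L)ˣ) (M : ℕ), 0 < M →
    Algebra.norm F ((w : 𝓞 L) : L) = 1 → w ≠ -1 →
    (∀ N : ℕ, ∃ η : (𝓞 L)ˣ, Algebra.norm F ((η : 𝓞 L) : L) = 1 ∧
        (((w * η ^ 2) ^ M : (𝓞 L)ˣ) : 𝓞 L) - 1 ∈ I.map (algebraMap (𝓞 F) (𝓞 L)) ^ N) →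
    AT v (-d) (2 + Algebra.trace F L ((w : 𝓞 L) : L)) :=
  fun _ _ _ _ _ _ _ _ hQ hd I _ v hv w M hM hw hw1 H => cr2l_raw hQ.deg hQ.root hd I v hv w M hM hw hw1 H

end Pool.Agent.Q14.LQS
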