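import Pool.Agent.Q198.LQ.ATL

/-!
# Project LQ of helper283: job CR2L, the local part

Halving of points of the torus `x² + D z² = 1` over `F_v` which are close to `(1, 0)`.
-/

set_option autoImplicit false

namespace Pool.Agent.Q14.LQS

open NumberField IsDedekindDomain Filter Topology Finset
open Pool.Agent.Q283.LQ Pool.Agent.Y682 Pool.Agent.Q198.LQ

section T

variable {K M : Type} [Field K] [Field M] [Algebra K M]

theorem pt_conj {D : K} {ρ : M} (hρ : ρ ^ 2 = -algebraMap K M D) {x z : K} (h : x ^ 2 + D * z ^ 2 = 1) :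
    pt ρ x z * pt ρ x (-z) = 1 := by
  rw [pt_mul hρ]
  have e1 : x * x - D * z * -z = 1 := by linear_combination h
  have e2 : x * -z + x * z = 0 := by ring
  rw [e1, e2]
  simp [pt]

theorem pt_one (ρ : M) : pt ρ (1 : K) (0 : K) = 1 := by
  simp [pt]

/-- from a point `τ` whose `2^c`-th power is a `2^(c+1)`-th power to a torsion point -/
theorem torsion_of_half {D : K} {ρ : M} (h2 : (2 : K) ≠ 0) (hρ : ρ ^ 2 = -algebraMap K M D)
    {a b h k : K} (hab : a ^ 2 + D * b ^ 2 = 1) (hhk : h ^ 2 + D * k ^ 2 = 1) (c : ℕ) {s0 r0 : K}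
    (hs0 : s0 ^ 2 + D * r0 ^ 2 = 1)
    (e : pt ρ s0 r0 ^ 2 ^ (c + 1) = (pt ρ a b * (pt ρ h k * pt ρ h k)) ^ 2 ^ c) :
    ∃ x z : K, x ^ 2 + D * z ^ 2 = 1 ∧ (fun t : K => 2 * t ^ 2 - 1)^[c] x = 1 ∧
      ∃ s r : K, s ^ 2 + D * r ^ 2 = 1 ∧ a = x * (2 * s ^ 2 - 1) - D * z * (2 * s * r) := by
  have hs0' : s0 ^ 2 + D * (-r0) ^ 2 = 1 := by linear_combination hs0
  have hk' : h ^ 2 + D * (-k) ^ 2 = 1 := by linear_combination hhk
  -- the torsion point
  obtain ⟨x, z, hxz, hp⟩ : ∃ x z : K, x ^ 2 + D * z ^ 2 = 1 ∧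
      pt ρ x z = (pt ρ a b * (pt ρ h k * pt ρ h k)) * (pt ρ s0 (-r0) * pt ρ s0 (-r0)) := by
    rw [pt_mul hρ h k h k, pt_mul hρ a b, pt_mul hρ s0, pt_mul hρ]
    exact ⟨_, _, norm_mul (norm_mul hab (norm_mul hhk hhk)) (norm_mul hs0' hs0'), rfl⟩
  have hc1 := pt_conj hρ hs0
  have hpow : pt ρ x z ^ 2 ^ c = 1 := by
    rw [hp, mul_pow, ← e, ← sq, ← pow_mul, ← pow_succ', ← mul_pow, hc1, one_pow]
  obtain ⟨y, hy1, hy2⟩ := pt_pow hρ c x z hxz
  rw [hpow] at hy2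
  have ht : (fun t : K => 2 * t ^ 2 - 1)^[c] x = 1 := by
    have h1 : (1 : K) ^ 2 + D * (0 : K) ^ 2 = 1 := by ring
    have h3 : pt ρ ((fun t : K => 2 * t ^ 2 - 1)^[c] x) y = pt ρ (1 : K) (0 : K) := by
      rw [← hy2, pt_one]
    exact pt_inj h2 hρ hy1 h1 h3
  refine ⟨x, z, hxz, ht, s0 * h - D * r0 * (-k), s0 * (-k) + h * r0, norm_mul hs0 hk', ?_⟩
  set s := s0 * h - D * r0 * (-k) with hs
  set r := s0 * (-k) + h * r0 with hr
  have hsr : s ^ 2 + D * r ^ 2 = 1 := norm_mul hs0 hk'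
  have h5 : pt ρ s r = pt ρ s0 r0 * pt ρ h (-k) := by rw [pt_mul hρ]
  have h6 : pt ρ a b = pt ρ x z * (pt ρ s r * pt ρ s r) := by
    rw [h5, hp]
    have hc2 := pt_conj hρ hhk
    calc pt ρ a b = pt ρ a b * (pt ρ h k * pt ρ h (-k)) ^ 2 * (pt ρ s0 r0 * pt ρ s0 (-r0)) ^ 2 := by
          rw [hc1, hc2, one_pow, mul_one, mul_one]
      _ = _ := by ring
  rw [pt_mul hρ s r s r, pt_mul hρ x z] at h6
  have h7 := pt_inj h2 hρ hab (norm_mul hxz (norm_mul hsr hsr)) h6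
  rw [h7]
  linear_combination (-x) * hsr

end T

section C

variable {F : Type} [Field F] [NumberField F] (v : HeightOneSpectrum (𝓞 F))

theorem two_ne' : (2 : v.adicCompletion F) ≠ 0 := by
  have e : (2 : v.adicCompletion F) = algebraMap F _ 2 := by rw [map_ofNat]
  rw [e]
  exact (map_ne_zero _).2 (by norm_num)

theorem vv_nat_le (n : ℕ) : vv v (n : v.adicCompletion F) ≤ 1 := by
  have e : (n : v.adicCompletion F) = algebraMap F _ (algebraMap (𝓞 F) F n) := by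
    rw [map_natCast, map_natCast]
  rw [e, vv_coe]
  exact v.valuation_le_one _

theorem vv_two_le : vv v (2 : v.adicCompletion F) ≤ 1 := by
  have := vv_nat_le v 2
  rwa [Nat.cast_ofNat] at this

theorem vv_two_ne : vv v (2 : v.adicCompletion F) ≠ 0 := (Valuation.ne_zero_iff _).2 (two_ne' v)

/-- halving a point close to `(1, 0)` -/
theorem half {D X Z : v.adicCompletion F} (h : X ^ 2 + D * Z ^ 2 = 1) {γ : WithZero (Multiplicative ℤ)}
    (hγ : γ ≤ vv v 2) (hX : vv v (X - 1) < γ * vv v 2 ^ 2) :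
    ∃ Y W : v.adicCompletion F, Y ^ 2 + D * W ^ 2 = 1 ∧ vv v (Y - 1) < γ ∧ X = 2 * Y ^ 2 - 1 ∧ Z = 2 * Y * W := by
  have h2 := two_ne' v
  have hv2 := vv_two_ne v
  have hv2p : 0 < vv v (2 : v.adicCompletion F) := zero_lt_iff.2 hv2
  have e4 : (4 : v.adicCompletion F) = 2 ^ 2 := by norm_num
  obtain ⟨y, hy⟩ := exists_sqrt v ((X - 1) / 2) (by
    rw [map_div₀, e4, map_pow, div_lt_iff₀ hv2p]
    refine hX.trans_le ?_
    calc γ * vv v 2 ^ 2 ≤ vv v 2 * vv v 2 ^ 2 := mul_le_mul_left hγ _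
      _ = vv v 2 ^ 2 * vv v 2 := mul_comm _ _)
  -- choose the sign
  obtain ⟨Y, hY, hY1⟩ : ∃ Y : v.adicCompletion F, Y ^ 2 = 1 + (X - 1) / 2 ∧ vv v 2 ≤ vv v (Y + 1) := by
    by_cases hc : vv v 2 ≤ vv v (y + 1)
    · exact ⟨y, hy, hc⟩
    · refine ⟨-y, by rw [neg_sq, hy], ?_⟩
      push Not at hc
      by_contra hc2
      push Not at hc2
      have e1 : (2 : v.adicCompletion F) = (y + 1) + (-y + 1) := by ring
      have h1 : vv v 2 ≤ max (vv v (y + 1)) (vv v (-y + 1)) := by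
        conv_lhs => rw [e1]
        exact Valuation.map_add _ _ _
      exact absurd (h1.trans_lt (max_lt hc hc2)) (lt_irrefl _)
  have hYv : vv v (Y - 1) < γ := by
    have e1 : (Y - 1) * (Y + 1) = (X - 1) / 2 := by linear_combination hY
    have e2 : vv v (Y - 1) * vv v (Y + 1) = vv v (X - 1) / vv v 2 := by
      rw [← map_mul, e1, map_div₀]
    have e3 : vv v (Y - 1) * vv v 2 ≤ vv v (X - 1) / vv v 2 := by
      rw [← e2]
      exact mul_le_mul_right hY1 _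
    have e4 : vv v (Y - 1) * vv v 2 * vv v 2 ≤ vv v (X - 1) := by
      calc vv v (Y - 1) * vv v 2 * vv v 2 ≤ vv v (X - 1) / vv v 2 * vv v 2 := mul_le_mul_left e3 _
        _ = _ := div_mul_cancel₀ _ hv2
    have e5 : vv v (Y - 1) * vv v 2 ^ 2 < γ * vv v 2 ^ 2 := by
      refine lt_of_le_of_lt ?_ hX
      rw [sq, ← mul_assoc]
      exact e4
    exact lt_of_mul_lt_mul_right e5 zero_le
  have hY0 : Y ≠ 0 := by
    rintro rfl
    rw [zero_sub, Valuation.map_neg, map_one] at hYv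
    exact absurd (hYv.trans_le (hγ.trans (vv_two_le v))) (lt_irrefl _)
  have hX2 : X = 2 * Y ^ 2 - 1 := by
    rw [hY]
    field_simp
    ring
  refine ⟨Y, Z / (2 * Y), ?_, hYv, hX2, by field_simp⟩
  rw [hX2] at h
  field_simp
  linear_combination h

theorem half_iter {M : Type} [Field M] [Algebra (v.adicCompletion F) M] {D : v.adicCompletion F} {ρ : M}
    (hρ : ρ ^ 2 = -algebraMap (v.adicCompletion F) M D) (n : ℕ) :
    ∀ X Z : v.adicCompletion F, X ^ 2 + D * Z ^ 2 = 1 → vv v (X - 1) < vv v 2 ^ (2 * n + 1) →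
    ∃ s r : v.adicCompletion F, s ^ 2 + D * r ^ 2 = 1 ∧ pt ρ s r ^ 2 ^ n = pt ρ X Z := by
  induction n with
  | zero =>
    intro X Z h _
    exact ⟨X, Z, h, by simp⟩
  | succ n ih =>
    intro X Z h hX
    obtain ⟨Y, W, h1, h2, h3, h4⟩ := half v h (γ := vv v 2 ^ (2 * n + 1))
      (by
        rw [pow_succ]
        exact mul_le_of_le_one_left' (pow_le_one' (vv_two_le v) _))
      (by rw [← pow_add]; exact hX)
    obtain ⟨s, r, h5, h6⟩ := ih Y W h1 h2
    refine ⟨s, r, h5, ?_⟩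
    rw [pow_succ, pow_mul, h6, sq, pt_mul hρ]
    have e1 : Y * Y - D * W * W = X := by rw [h3]; linear_combination -h1
    have e2 : Y * W + Y * W = Z := by rw [h4]; ring
    rw [e1, e2]

/-- the torsion point near a point `τ = (a, b) (h, k)²` with `τ ^ (2^c)` close to `(1, 0)` -/
theorem exists_torsion {D : v.adicCompletion F} {a b h k : v.adicCompletion F}
    (hab : a ^ 2 + D * b ^ 2 = 1) (hhk : h ^ 2 + D * k ^ 2 = 1) (c : ℕ)
    (hclose : vv v ((fun t : v.adicCompletion F => 2 * t ^ 2 - 1)^[c]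
      (a * (h * h - D * k * k) - D * b * (h * k + h * k)) - 1) < vv v 2 ^ (2 * (c + 1) + 1)) :
    ∃ x z : v.adicCompletion F, x ^ 2 + D * z ^ 2 = 1 ∧
      (fun t : v.adicCompletion F => 2 * t ^ 2 - 1)^[c] x = 1 ∧
      ∃ s r : v.adicCompletion F, s ^ 2 + D * r ^ 2 = 1 ∧ a = x * (2 * s ^ 2 - 1) - D * z * (2 * s * r) := by
  obtain ⟨ρ, hρ⟩ := IsAlgClosed.exists_pow_nat_eq (k := AlgebraicClosure (v.adicCompletion F))
    (-algebraMap (v.adicCompletion F) (AlgebraicClosure (v.adicCompletion F)) D) (n := 2) two_pos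
  set x0 := a * (h * h - D * k * k) - D * b * (h * k + h * k) with hx0
  set z0 := a * (h * k + h * k) + (h * h - D * k * k) * b with hz0
  have hh := norm_mul hhk hhk
  have h0 : x0 ^ 2 + D * z0 ^ 2 = 1 := norm_mul hab hh
  have hpt : pt ρ x0 z0 = pt ρ a b * (pt ρ h k * pt ρ h k) := by
    rw [pt_mul hρ h k h k, pt_mul hρ a b]
  obtain ⟨y, hy1, hy2⟩ := pt_pow hρ c x0 z0 h0
  obtain ⟨s0, r0, hs0, hs1⟩ := half_iter v hρ (c + 1) _ y hy1 hclose
  refine torsion_of_half (two_ne' v) hρ hab hhk c hs0 ?_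
  rw [hs1, ← hy2, hpt]

end C

end Pool.Agent.Q14.LQS
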