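import Pool.Agent.Q283.LQ.Stm

/-!
# Project LQ of helper283: relations between units, bases of groups of units
-/

set_option autoImplicit false

namespace Pool.Agent.Q14.LQS

open NumberField IsDedekindDomain Filter Topology Finset
open Pool.Agent.Q283.LQ

theorem zpow_sum' {G : Type} [CommGroup G] {ι : Type} (g : G) (f : ι → ℤ) (s : Finset ι) :
    ∏ i ∈ s, g ^ f i = g ^ ∑ i ∈ s, f i := by
  classical
  induction s using Finset.induction_on with
  | empty => simp
  | insert a s ha ih => rw [Finset.prod_insert ha, Finset.sum_insert ha, ih, zpow_add]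

theorem prod_pow_comb {G : Type} [CommGroup G] {ι κ : Type} [Fintype ι] [Fintype κ] (g : ι → G)
    (δ : κ → G) (h : ℕ) (C : ι → κ → ℤ) (hC : ∀ i, g i ^ h = ∏ j, δ j ^ C i j) (c : ι → ℤ) :
    (∏ i, g i ^ c i) ^ h = ∏ j, δ j ^ (∑ i, c i * C i j) := by
  calc (∏ i, g i ^ c i) ^ h = ∏ i, (g i ^ h) ^ c i := by
        rw [← Finset.prod_pow]
        refine Finset.prod_congr rfl fun i _ => ?_
        rw [← zpow_natCast, ← zpow_natCast, zpow_comm]
    _ = ∏ i, ∏ j, δ j ^ (c i * C i j) := by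
        refine Finset.prod_congr rfl fun i _ => ?_
        rw [hC, ← Finset.prod_zpow]
        refine Finset.prod_congr rfl fun j _ => ?_
        rw [← zpow_mul, mul_comm]
    _ = ∏ j, ∏ i, δ j ^ (c i * C i j) := Finset.prod_comm
    _ = _ := by
        refine Finset.prod_congr rfl fun j _ => ?_
        exact zpow_sum' _ _ _

section R

variable {K : Type} [Field K] [NumberField K]

/-- the units congruent to `1` -/
noncomputable def cgs (J : Ideal (𝓞 K)) : Subgroup (𝓞 K)ˣ :=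
  (Units.map ((Ideal.Quotient.mk J : 𝓞 K →+* 𝓞 K ⧸ J) : 𝓞 K →* 𝓞 K ⧸ J)).ker

theorem mem_cgs {J : Ideal (𝓞 K)} {x : (𝓞 K)ˣ} : x ∈ cgs J ↔ (x : 𝓞 K) - 1 ∈ J := by
  unfold cgs
  rw [MonoidHom.mem_ker, Units.ext_iff, ← Ideal.Quotient.eq]
  show (Ideal.Quotient.mk J) (x : 𝓞 K) = 1 ↔ _
  rw [map_one]

variable {J : Ideal (𝓞 K)} {n : ℕ} {ε : Fin n → (𝓞 K)ˣ}

theorem rel_iff {a : Fin n → ℤ_[2]} : Rel K J ε a ↔
    ∃ m : ℕ → Fin n → ℤ, (∀ i, Tendsto (fun k => ((m k i : ℤ) : ℤ_[2])) atTop (𝓝 (a i))) ∧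
    ∀ N : ℕ, ∀ᶠ k in atTop, ∏ i, ε i ^ m k i ∈ cgs (J ^ N) := by
  unfold Pool.Agent.Q283.LQ.Rel
  simp only [mem_cgs]

theorem rel_zero : Rel K J ε 0 := by
  rw [rel_iff]
  refine ⟨fun _ => 0, fun i => ?_, fun N => Eventually.of_forall fun k => ?_⟩
  · simp
  · simp only [Pi.zero_apply, zpow_zero, Finset.prod_const_one]
    exact (cgs (J ^ N)).one_mem

theorem rel_add {a b : Fin n → ℤ_[2]} (ha : Rel K J ε a) (hb : Rel K J ε b) :
    Rel K J ε (a + b) := by
  rw [rel_iff] at *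
  obtain ⟨m, hm, hm2⟩ := ha
  obtain ⟨m', hm', hm2'⟩ := hb
  refine ⟨fun k i => m k i + m' k i, fun i => ?_, fun N => ?_⟩
  · have := (hm i).add (hm' i)
    refine this.congr fun k => ?_
    push_cast
    rfl
  · filter_upwards [hm2 N, hm2' N] with k h1 h2
    have e : ∏ i, ε i ^ (m k i + m' k i) = (∏ i, ε i ^ m k i) * ∏ i, ε i ^ m' k i := by
      rw [← Finset.prod_mul_distrib]
      exact Finset.prod_congr rfl fun i _ => zpow_add _ _ _
    rw [e]
    exact (cgs (J ^ N)).mul_mem h1 h2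

theorem exists_nat_tendsto (c : ℤ_[2]) : ∃ u : ℕ → ℕ, Tendsto (fun k => ((u k : ℕ) : ℤ_[2])) atTop
    (𝓝 c) := by
  have h : ∀ k : ℕ, ∃ u : ℕ, dist c ((u : ℕ) : ℤ_[2]) < 1 / ((k : ℝ) + 1) := fun k =>
    PadicInt.denseRange_natCast.exists_dist_lt c (by positivity)
  choose u hu using h
  refine ⟨u, ?_⟩
  rw [tendsto_iff_dist_tendsto_zero]
  refine squeeze_zero (fun k => dist_nonneg) (fun k => ?_) tendsto_one_div_add_atTop_nhds_zero_nat
  rw [dist_comm]
  exact (hu k).le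

theorem rel_smul (c : ℤ_[2]) {a : Fin n → ℤ_[2]} (ha : Rel K J ε a) : Rel K J ε (c • a) := by
  rw [rel_iff] at *
  obtain ⟨m, hm, hm2⟩ := ha
  obtain ⟨u, hu⟩ := exists_nat_tendsto c
  refine ⟨fun k i => u k * m k i, fun i => ?_, fun N => ?_⟩
  · have := hu.mul (hm i)
    refine this.congr fun k => ?_
    push_cast
    rfl
  · filter_upwards [hm2 N] with k h1
    have e : ∏ i, ε i ^ ((u k : ℤ) * m k i) = (∏ i, ε i ^ m k i) ^ u k := by
      rw [← Finset.prod_pow]
      refine Finset.prod_congr rfl fun i _ => ?_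
      rw [mul_comm, zpow_mul, zpow_natCast]
    rw [e]
    exact (cgs (J ^ N)).pow_mem h1 _

/-- the module of the relations -/
noncomputable def relMod (J : Ideal (𝓞 K)) {n : ℕ} (ε : Fin n → (𝓞 K)ˣ) :
    Submodule ℤ_[2] (Fin n → ℤ_[2]) where
  carrier := {a | Rel K J ε a}
  add_mem' := fun ha hb => rel_add ha hb
  zero_mem' := rel_zero
  smul_mem' := fun c _ ha => rel_smul c ha

theorem mem_relMod {a : Fin n → ℤ_[2]} : a ∈ relMod J ε ↔ Rel K J ε a := Iff.rfl

/-- the linear map given by an integral matrix -/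
noncomputable def lm {n q : ℕ} (C : Fin n → Fin q → ℤ) :
    (Fin n → ℤ_[2]) →ₗ[ℤ_[2]] (Fin q → ℤ_[2]) where
  toFun b := fun j => ∑ i, b i * ((C i j : ℤ) : ℤ_[2])
  map_add' a b := by
    funext j
    simp only [Pi.add_apply, add_mul, Finset.sum_add_distrib]
  map_smul' c b := by
    funext j
    simp only [Pi.smul_apply, smul_eq_mul, RingHom.id_apply, Finset.mul_sum, mul_assoc]

theorem lm_apply {n q : ℕ} (C : Fin n → Fin q → ℤ) (b : Fin n → ℤ_[2]) (j : Fin q) :
    lm C b j = ∑ i, b i * ((C i j : ℤ) : ℤ_[2]) := rfl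

theorem rel_lm {q : ℕ} {δ : Fin q → (𝓞 K)ˣ} (h : ℕ) (C : Fin n → Fin q → ℤ)
    (hC : ∀ i, ε i ^ h = ∏ j, δ j ^ C i j) {b : Fin n → ℤ_[2]} (hb : Rel K J ε b) :
    Rel K J δ (lm C b) := by
  rw [rel_iff] at *
  obtain ⟨m, hm, hm2⟩ := hb
  refine ⟨fun k j => ∑ i, m k i * C i j, fun j => ?_, fun N => ?_⟩
  · rw [lm_apply]
    have := tendsto_finsetSum (univ : Finset (Fin n)) fun i _ =>
      (hm i).mul_const ((C i j : ℤ) : ℤ_[2])
    refine this.congr fun k => ?_
    push_cast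
    rfl
  · filter_upwards [hm2 N] with k h1
    rw [← prod_pow_comb ε δ h C hC]
    exact (cgs (J ^ N)).pow_mem h1 _

theorem rel_hom {K' : Type} [Field K'] [NumberField K'] {J' : Ideal (𝓞 K')}
    (f : (𝓞 K)ˣ →* (𝓞 K')ˣ) (hf : ∀ N x, x ∈ cgs (J ^ N) → f x ∈ cgs (J' ^ N))
    {b : Fin n → ℤ_[2]} (hb : Rel K J ε b) : Rel K' J' (fun i => f (ε i)) b := by
  rw [rel_iff] at *
  obtain ⟨m, hm, hm2⟩ := hb
  refine ⟨m, hm, fun N => ?_⟩
  filter_upwards [hm2 N] with k h1
  have e : ∏ i, f (ε i) ^ m k i = f (∏ i, ε i ^ m k i) := by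
    rw [map_prod]
    exact Finset.prod_congr rfl fun i _ => (map_zpow f _ _).symm
  rw [e]
  exact hf N _ h1

/-- bases modulo torsion of groups of units -/
theorem unit_basis (E : Subgroup (𝓞 K)ˣ) : ∃ (p : ℕ) (θ : Fin p → (𝓞 K)ˣ) (h : ℕ), 0 < h ∧
    (∀ i, θ i ∈ E) ∧ (∀ c : Fin p → ℤ, ∏ i, θ i ^ c i = 1 → c = 0) ∧
    ∀ η ∈ E, ∃ c : Fin p → ℤ, η ^ h = (∏ i, θ i ^ c i) ^ h := by
  classical
  have hfree : Module.Free ℤ (Units.unitLattice K) := ZLattice.module_free ℝ (Units.unitLattice K)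
  have hfin : Module.Finite ℤ (Units.unitLattice K) :=
    ZLattice.module_finite ℝ (Units.unitLattice K)
  let q : Additive (𝓞 K)ˣ →ₗ[ℤ] Units.dirichletUnitTheorem.logSpace K :=
    (Units.logEmbedding K).toIntLinearMap
  let W : Submodule ℤ (Units.unitLattice K) :=
    ((AddSubgroup.toIntSubmodule (Subgroup.toAddSubgroup E)).map q).comap
      (Units.unitLattice K).subtype
  obtain ⟨p, ⟨b⟩⟩ := Submodule.nonempty_basis_of_pid
    (Module.Free.chooseBasis ℤ (Units.unitLattice K)) W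
  have hθ : ∀ i, ∃ x : (𝓞 K)ˣ, x ∈ E ∧
      q (Additive.ofMul x) = ((b i : Units.unitLattice K) : Units.dirichletUnitTheorem.logSpace K) := by
    intro i
    obtain ⟨x, hx, hx2⟩ := (b i).2
    exact ⟨Additive.toMul x, hx, hx2⟩
  choose θ hθE hθ using hθ
  have hq0 : ∀ x : (𝓞 K)ˣ, q (Additive.ofMul x) = 0 ↔ x ∈ Units.torsion K := by
    intro x
    exact Units.dirichletUnitTheorem.logEmbedding_eq_zero_iff
  have hprod : ∀ c : Fin p → ℤ, q (Additive.ofMul (∏ i, θ i ^ c i)) =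
      (((∑ i, c i • b i : W) : Units.unitLattice K) : Units.dirichletUnitTheorem.logSpace K) := by
    intro c
    rw [ofMul_prod, map_sum, Submodule.coe_sum, Submodule.coe_sum]
    refine Finset.sum_congr rfl fun i _ => ?_
    rw [ofMul_zpow, map_zsmul, hθ]
    rfl
  refine ⟨p, θ, Units.torsionOrder K, Units.torsionOrder_pos K, hθE, fun c hc => ?_,
    fun η hη => ?_⟩
  · have h1 := hprod c
    rw [hc, ofMul_one, map_zero] at h1
    have h2 : ∑ i, c i • b i = 0 := Subtype.ext (Subtype.ext h1.symm)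
    have h3 := Fintype.linearIndependent_iff.1 b.linearIndependent c h2
    funext i
    exact h3 i
  · have hv0 : q (Additive.ofMul η) ∈ Units.unitLattice K := ⟨Additive.ofMul η, trivial, rfl⟩
    have hv : (⟨q (Additive.ofMul η), hv0⟩ : Units.unitLattice K) ∈ W :=
      ⟨Additive.ofMul η, hη, rfl⟩
    refine ⟨fun i => b.repr ⟨_, hv⟩ i, ?_⟩
    have h1 := hprod fun i => b.repr ⟨_, hv⟩ i
    rw [b.sum_repr] at h1
    have h2 : q (Additive.ofMul ((∏ i, θ i ^ b.repr ⟨_, hv⟩ i) * η⁻¹)) = 0 := by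
      rw [ofMul_mul, map_add, h1, ofMul_inv, map_neg]
      exact add_neg_cancel _
    rw [hq0] at h2
    have h3 : ((∏ i, θ i ^ b.repr ⟨_, hv⟩ i) * η⁻¹) ^ Units.torsionOrder K = 1 := by
      have h4 := pow_card_eq_one' (x := (⟨_, h2⟩ : Units.torsion K))
      have h5 := congrArg Subtype.val h4
      exact h5
    rw [mul_pow, inv_pow, mul_inv_eq_one] at h3
    exact h3.symm

end R

/-- integral vectors independent over the integers are independent over the `2`-adic integers -/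
theorem inj_padic {n : ℕ} {ι : Type} [Fintype ι] (M : Fin n → ι → ℤ)
    (h : ∀ c : Fin n → ℤ, (∀ j, ∑ i, c i * M i j = 0) → c = 0) (b : Fin n → ℤ_[2])
    (hb : ∀ j, ∑ i, b i * ((M i j : ℤ) : ℤ_[2]) = 0) : b = 0 := by
  classical
  -- the rational map
  let f : (Fin n → ℚ) →ₗ[ℚ] (ι → ℚ) :=
    { toFun := fun x j => ∑ i, x i * (M i j : ℚ)
      map_add' := fun x y => by
        funext j
        simp only [Pi.add_apply, add_mul, Finset.sum_add_distrib]
      map_smul' := fun c x => by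
        funext j
        simp only [Pi.smul_apply, smul_eq_mul, RingHom.id_apply, Finset.mul_sum, mul_assoc] }
  have hf : LinearMap.ker f = ⊥ := by
    rw [LinearMap.ker_eq_bot']
    intro x hx
    obtain ⟨d, hd⟩ := IsLocalization.exist_integer_multiples_of_finite (nonZeroDivisors ℤ) x
    have hd0 : ((d : ℤ) : ℚ) ≠ 0 := by
      have := nonZeroDivisors.ne_zero d.2
      exact_mod_cast this
    choose c hc using hd
    have hc' : ∀ i, ((c i : ℤ) : ℚ) = ((d : ℤ) : ℚ) * x i := by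
      intro i
      have := hc i
      rw [Algebra.smul_def] at this
      exact this
    have h1 : c = 0 := by
      apply h
      intro j
      have h2 : ∑ i, x i * (M i j : ℚ) = 0 := congrFun hx j
      have h3 : ((∑ i, c i * M i j : ℤ) : ℚ) = 0 := by
        push_cast
        calc ∑ i, (c i : ℚ) * (M i j : ℚ) = ((d : ℤ) : ℚ) * ∑ i, x i * (M i j : ℚ) := by
              rw [Finset.mul_sum]
              refine Finset.sum_congr rfl fun i _ => ?_
              rw [hc' i]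
              ring
          _ = 0 := by rw [h2, mul_zero]
      exact_mod_cast h3
    funext i
    have h4 := hc' i
    rw [h1] at h4
    rw [Pi.zero_apply, Int.cast_zero] at h4
    exact (mul_eq_zero.1 h4.symm).resolve_left hd0
  obtain ⟨g, hg⟩ := f.exists_leftInverse_of_injective hf
  obtain ⟨G, hG⟩ : ∃ G : ι → Fin n → ℚ, ∀ j i, G j i = g (Pi.single j 1) i := ⟨_, fun j i => rfl⟩
  have hMG : ∀ i k, ∑ j, (M i j : ℚ) * G j k = if i = k then 1 else 0 := by
    intro i k
    have h1 : g (f (Pi.single i 1)) = Pi.single i 1 := by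
      have := LinearMap.congr_fun hg (Pi.single i 1)
      exact this
    have h2 : f (Pi.single i 1) = ∑ j, (M i j : ℚ) • (Pi.single j (1 : ℚ) : ι → ℚ) := by
      funext j
      show ∑ i', (Pi.single i (1 : ℚ) : Fin n → ℚ) i' * (M i' j : ℚ) = _
      rw [Finset.sum_eq_single i]
      · rw [Pi.single_eq_same, one_mul, Finset.sum_apply, Finset.sum_eq_single j]
        · simp
        · intro b _ hb
          rw [Pi.smul_apply, Pi.single_eq_of_ne (Ne.symm hb), smul_zero]
        · intro hj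
          exact absurd (Finset.mem_univ j) hj
      · intro i' _ hi'
        rw [Pi.single_eq_of_ne hi', zero_mul]
      · intro hi
        exact absurd (Finset.mem_univ i) hi
    rw [h2, map_sum] at h1
    have h3 := congrFun h1 k
    rw [Finset.sum_apply] at h3
    calc ∑ j, (M i j : ℚ) * G j k = ∑ j, (g ((M i j : ℚ) • (Pi.single j (1 : ℚ) : ι → ℚ))) k := by
          refine Finset.sum_congr rfl fun j _ => ?_
          rw [map_smul, hG]
          rfl
      _ = (Pi.single i (1 : ℚ) : Fin n → ℚ) k := h3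
      _ = _ := by
          rw [Pi.single_apply]
          by_cases hik : i = k
          · rw [if_pos hik, if_pos hik.symm]
          · rw [if_neg hik, if_neg (Ne.symm hik)]
  funext k
  have h1 : ((b k : ℤ_[2]) : ℚ_[2]) = ∑ i, ((b i : ℤ_[2]) : ℚ_[2]) * (if i = k then 1 else 0) := by
    simp
  have h2 : ∀ i, ((if i = k then 1 else 0 : ℚ_[2])) = ∑ j, ((M i j : ℤ) : ℚ_[2]) * ((G j k : ℚ) : ℚ_[2]) := by
    intro i
    have h3 := congrArg (fun x : ℚ => (x : ℚ_[2])) (hMG i k)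
    have h4 : ((∑ j, (M i j : ℚ) * G j k : ℚ) : ℚ_[2]) =
        ∑ j, ((M i j : ℤ) : ℚ_[2]) * ((G j k : ℚ) : ℚ_[2]) := by push_cast; rfl
    rw [← h4]
    rw [show ((∑ j, (M i j : ℚ) * G j k : ℚ) : ℚ_[2]) = (((if i = k then 1 else 0 : ℚ)) : ℚ_[2]) from h3]
    split_ifs <;> simp
  have h5 : ((b k : ℤ_[2]) : ℚ_[2]) = 0 := by
    rw [h1]
    calc ∑ i, ((b i : ℤ_[2]) : ℚ_[2]) * (if i = k then 1 else 0) =
          ∑ i, ∑ j, ((b i : ℤ_[2]) : ℚ_[2]) * (((M i j : ℤ) : ℚ_[2]) * ((G j k : ℚ) : ℚ_[2])) := by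
          refine Finset.sum_congr rfl fun i _ => ?_
          rw [h2 i, Finset.mul_sum]
      _ = ∑ j, (∑ i, ((b i : ℤ_[2]) : ℚ_[2]) * ((M i j : ℤ) : ℚ_[2])) * ((G j k : ℚ) : ℚ_[2]) := by
          rw [Finset.sum_comm]
          refine Finset.sum_congr rfl fun j _ => ?_
          rw [Finset.sum_mul]
          refine Finset.sum_congr rfl fun i _ => ?_
          ring
      _ = 0 := by
          refine Finset.sum_eq_zero fun j _ => ?_
          have h6 : (∑ i, ((b i : ℤ_[2]) : ℚ_[2]) * ((M i j : ℤ) : ℚ_[2])) = 0 := by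
            have h7 := congrArg (fun x : ℤ_[2] => (x : ℚ_[2])) (hb j)
            have h8 : ((∑ i, b i * ((M i j : ℤ) : ℤ_[2]) : ℤ_[2]) : ℚ_[2]) =
                ∑ i, ((b i : ℤ_[2]) : ℚ_[2]) * ((M i j : ℤ) : ℚ_[2]) := by
              have h9 := map_sum PadicInt.Coe.ringHom
                (fun i => b i * ((M i j : ℤ) : ℤ_[2])) (univ : Finset (Fin n))
              refine h9.trans (Finset.sum_congr rfl fun i _ => ?_)
              rw [map_mul, map_intCast]
              rfl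
            rw [← h8]
            exact h7
          rw [h6, zero_mul]
  exact PadicInt.coe_eq_zero.1 h5

end Pool.Agent.Q14.LQS
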