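import Pool.Agent.Q283.LQ.Stm

/-!
# Project LQ of helper283: job SHARE
-/

set_option autoImplicit false

namespace Pool.Agent.Q14.LQS

open NumberField IsDedekindDomain Filter Topology Finset
open Pool.Agent.Q283.LQ

theorem nest_mono : ∀ (k : ℕ) {P Q : (Fin k → ℕ) → Prop}, (∀ X, P X → Q X) → Nest k P → Nest k Q
  | 0, _, _, h, hP => h _ hP
  | k + 1, _, _, h, hP =>
    nest_mono k (fun _ hX => Filter.Eventually.mono hX fun _ hx => h _ hx) hP

theorem nest_and : ∀ (k : ℕ) {P Q : (Fin k → ℕ) → Prop}, Nest k P → Nest k Q →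
    Nest k fun X => P X ∧ Q X
  | 0, _, _, hP, hQ => ⟨hP, hQ⟩
  | k + 1, P, Q, hP, hQ => by
    have h := nest_and k hP hQ
    exact nest_mono k (fun X hX => Filter.Eventually.and hX.1 hX.2) h

theorem nest_true : ∀ (k : ℕ) {P : (Fin k → ℕ) → Prop}, (∀ X, P X) → Nest k P
  | 0, _, h => h _
  | k + 1, _, h => nest_true k fun _ => Filter.Eventually.of_forall fun _ => h _

theorem nest_all (k : ℕ) {ι : Type} (s : Finset ι) (P : ι → (Fin k → ℕ) → Prop)
    (h : ∀ i ∈ s, Nest k (P i)) : Nest k fun X => ∀ i ∈ s, P i X := by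
  classical
  induction s using Finset.induction_on with
  | empty => exact nest_true k fun X i hi => absurd hi (Finset.notMem_empty i)
  | insert a s ha ih =>
    have h1 := nest_and k (h a (Finset.mem_insert_self a s))
      (ih fun i hi => h i (Finset.mem_insert_of_mem hi))
    refine nest_mono k (fun X hX i hi => ?_) h1
    rcases Finset.mem_insert.1 hi with rfl | h2
    · exact hX.1
    · exact hX.2 i h2

theorem card_pairs (k : ℕ) : Fintype.card {p : Fin k × Fin k // p.1 < p.2} = k * (k - 1) / 2 := by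
  classical
  have h1 : (univ.filter fun p : Fin k × Fin k => p.1 < p.2).card =
      (univ.filter fun p : Fin k × Fin k => p.2 < p.1).card := by
    refine Finset.card_bij (fun p _ => (p.2, p.1)) (fun p hp => ?_) (fun p _ p' _ h => ?_)
      fun p hp => ?_
    · rw [Finset.mem_filter] at hp ⊢
      exact ⟨Finset.mem_univ _, hp.2⟩
    · rw [Prod.mk.injEq] at h
      exact Prod.ext h.2 h.1
    · rw [Finset.mem_filter] at hp
      exact ⟨(p.2, p.1), by rw [Finset.mem_filter]; exact ⟨Finset.mem_univ _, hp.2⟩, rfl⟩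
  have h2 : (univ : Finset (Fin k)).offDiag =
      (univ.filter fun p : Fin k × Fin k => p.1 < p.2) ∪
        (univ.filter fun p : Fin k × Fin k => p.2 < p.1) := by
    ext p
    simp only [Finset.mem_offDiag, Finset.mem_univ, true_and, Finset.mem_union, Finset.mem_filter]
    exact ne_iff_lt_or_gt
  have h3 : Disjoint (univ.filter fun p : Fin k × Fin k => p.1 < p.2)
      (univ.filter fun p : Fin k × Fin k => p.2 < p.1) := by
    rw [Finset.disjoint_filter]
    intro p _ h h'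
    exact lt_asymm h h'
  have h4 := Finset.offDiag_card (univ : Finset (Fin k))
  rw [h2, Finset.card_union_of_disjoint h3, ← h1, Finset.card_univ, Fintype.card_fin] at h4
  rw [Fintype.card_subtype]
  have h5 : k * k - k = k * (k - 1) := by
    rw [Nat.mul_sub, mul_one]
  omega

theorem card_tab (f k : ℕ) : Fintype.card (Tab f k) = 2 ^ (k * f + k * (k - 1) / 2) := by
  classical
  unfold Tab
  rw [Fintype.card_prod, Fintype.card_fun, Fintype.card_fun, Fintype.card_fun, card_pairs,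
    Fintype.card_fin, Fintype.card_fin, ZMod.card, ← pow_mul, ← pow_add, mul_comm f k]

theorem final {T TN B G H M μ ε e : ℝ} {N : ℕ} (hT : 1 ≤ T) (hB : 0 < B) (hM : 0 < M)
    (he : 0 < e) (he2 : e * (2 * μ + 2 * ε + M) ≤ ε / 2 / M) (hμ : 0 ≤ μ) (hε : 0 < ε)
    (hN : 1 ≤ N) (hG : T * (1 / M - e) * B ≤ G)
    (hH : H ≤ TN * (1 / M + e) * B + M * e * B) (hTN : N * TN ≤ (μ + ε / 2) * T) :
    H ≤ (μ / N + ε) * G := by
  have hN1 : (1 : ℝ) ≤ N := by exact_mod_cast hN
  have hN0 : (0 : ℝ) < N := by linarith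
  obtain ⟨a, ha⟩ : ∃ a, a = μ / N := ⟨_, rfl⟩
  have ha0 : 0 ≤ a := by rw [ha]; positivity
  have haμ : a ≤ μ := by rw [ha]; exact div_le_self hμ hN1
  have hTN2 : TN ≤ (a + ε / 2) * T := by
    have h1 : TN ≤ (μ + ε / 2) * T / N := by
      rw [le_div_iff₀ hN0]
      linarith
    have h2 : (μ + ε / 2) * T / N = a * T + ε / 2 * T / N := by
      rw [ha]
      ring
    have h3 : ε / 2 * T / N ≤ ε / 2 * T := div_le_self (by positivity) hN1
    rw [h2] at h1
    linarith
  rw [← ha]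
  have hx : 0 < 1 / M + e := by positivity
  have h1 : TN * (1 / M + e) ≤ (a + ε / 2) * T * (1 / M + e) :=
    mul_le_mul_of_nonneg_right hTN2 hx.le
  have hme : M * e ≤ T * (M * e) := by
    have : 0 ≤ M * e := by positivity
    nlinarith
  have h2 : e * (2 * a + 2 * ε + M) ≤ ε / 2 / M := by
    refine le_trans ?_ he2
    exact mul_le_mul_of_nonneg_left (by linarith) he.le
  have h3 := mul_le_mul_of_nonneg_left h2 (by linarith : (0 : ℝ) ≤ T)
  have h5 : ε / 2 / M = ε / 2 * (1 / M) := by ring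
  rw [h5] at h3
  have key : (a + ε / 2) * T * (1 / M + e) + M * e ≤ (a + ε) * (T * (1 / M - e)) := by
    have e1 : (a + ε) * (T * (1 / M - e)) - (a + ε / 2) * T * (1 / M + e) =
      T * (ε / 2 * (1 / M)) - T * (e * (2 * a + 3 / 2 * ε)) := by ring
    have e2 : T * (e * (2 * a + 2 * ε + M)) = T * (e * (2 * a + 3 / 2 * ε)) + T * (M * e) +
      T * (e * (ε / 2)) := by ring
    have h6 : 0 ≤ T * (e * (ε / 2)) := by positivity
    linarith
  have h7 : (a + ε) * (T * (1 / M - e) * B) ≤ (a + ε) * G :=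
    mul_le_mul_of_nonneg_left hG (by linarith)
  have h8 := mul_le_mul_of_nonneg_right key hB.le
  have h9 := mul_le_mul_of_nonneg_right h1 hB.le
  have e3 : ((a + ε / 2) * T * (1 / M + e) + M * e) * B =
    (a + ε / 2) * T * (1 / M + e) * B + M * e * B := by ring
  have e4 : (a + ε) * (T * (1 / M - e)) * B = (a + ε) * (T * (1 / M - e) * B) := by ring
  linarith

section F

variable {F : Type} [Field F] [NumberField F]

theorem tb_unique {f k : ℕ} {u : Fin f → F} {π : HeightOneSpectrum (𝓞 F) → F} {τ τ' : Tab f k}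
    {q : Fin k → HeightOneSpectrum (𝓞 F)} (h : Tb u π τ q) (h' : Tb u π τ' q) : τ = τ' := by
  refine Prod.ext ?_ ?_
  · funext j l
    rw [← h.1 j l, ← h'.1 j l]
  · funext p
    rw [← h.2.1 p, ← h'.2.1 p]

end F

theorem share (hBASE : S_BASE) (hLOC : S_LOC) (hSH1 : S_SH1) (hSH2 : S_SH2) (hEE : S_EE)
    (hCOUNT : S_COUNT) (hNEST : S_NEST) : S_SHARE := by
  intro F _ _
  obtain ⟨y0, hy0⟩ := hBASE F
  refine ⟨y0, fun y hy A c hA D0 hD0 ε hε => ?_⟩
  classical
  obtain ⟨f, u, r, π, g, hb, hf⟩ := hy0 y hy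
  have hfin := (hLOC F y hb.two).1
  obtain ⟨⟨ψ, w⟩, hcls, -⟩ := hb.cls D0 hD0
  have hcls' : Nn y (D0 * mon r ψ * mon u w) := hcls
  obtain ⟨E, hE1, hE2⟩ := hEE F y f u r π g hb hf hfin A c hA D0 hD0
  obtain ⟨μ, hμ⟩ : ∃ μ : ℝ, μ = 2 ^ (∑ᶠ v, c v) * (1 / 2 : ℝ) ^ ex D0 := ⟨_, rfl⟩
  have hμ0 : 0 ≤ μ := by rw [hμ]; positivity
  rw [← hμ] at hE2
  -- the choice of k0
  have hlim : Tendsto (fun k : ℕ => (2 : ℝ) ^ f * 2 / 2 ^ k) atTop (𝓝 0) := by
    have h1 := tendsto_pow_atTop_nhds_zero_of_lt_one (by norm_num : (0 : ℝ) ≤ 1 / 2)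
      (by norm_num : (1 : ℝ) / 2 < 1)
    have h2 := h1.const_mul ((2 : ℝ) ^ f * 2)
    rw [mul_zero] at h2
    refine h2.congr fun k => ?_
    rw [one_div, inv_pow, ← div_eq_mul_inv]
  obtain ⟨k1, hk1⟩ := eventually_atTop.1 (hlim.eventually (gt_mem_nhds (half_pos hε)))
  refine ⟨max k1 1, fun k hk => ?_⟩
  have hk1' : k1 ≤ k := (le_max_left _ _).trans hk
  have hk2 : 1 ≤ k := (le_max_right _ _).trans hk
  have hδ := hk1 k hk1'
  obtain ⟨M, hM⟩ : ∃ M : ℝ, M = 2 ^ (k * f + k * (k - 1) / 2) := ⟨_, rfl⟩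
  have hM0 : 0 < M := by rw [hM]; positivity
  have hMcard : (Fintype.card (Tab f k) : ℝ) = M := by
    rw [card_tab, hM]
    push_cast
    rfl
  obtain ⟨e, he⟩ : ∃ e : ℝ, e = min (1 / M / 2) (ε / 2 / M / (2 * μ + 2 * ε + M)) := ⟨_, rfl⟩
  have hden : 0 < 2 * μ + 2 * ε + M := by positivity
  have he0 : 0 < e := by
    rw [he]
    refine lt_min (by positivity) (by positivity)
  have he1 : e ≤ 1 / M / 2 := by rw [he]; exact min_le_left _ _
  have he2 : e * (2 * μ + 2 * ε + M) ≤ ε / 2 / M := by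
    rw [← le_div_iff₀ hden, he]
    exact min_le_right _ _
  have hnest := nest_all k (univ : Finset (Tab f k)) (fun τ X =>
    (Box y X : Set (Fin k → HeightOneSpectrum (𝓞 F))).Finite ∧
    0 < ((Box y X : Set (Fin k → HeightOneSpectrum (𝓞 F))).ncard : ℝ) ∧
    |({q ∈ (Box y X : Set (Fin k → HeightOneSpectrum (𝓞 F))) | Tb u π τ q}.ncard : ℝ) /
      ((Box y X : Set (Fin k → HeightOneSpectrum (𝓞 F))).ncard : ℝ) -
        1 / 2 ^ (k * f + k * (k - 1) / 2)| ≤ e) fun τ _ => hNEST F y f u r π g hb k τ e he0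
  -- a table with sum ψ
  obtain ⟨τ0, hτ0⟩ : ∃ τ : Tab f k, ∑ j, τ.1 j = ψ := by
    refine ⟨(fun j => if j = ⟨0, hk2⟩ then ψ else 0, fun _ => 0), ?_⟩
    show ∑ j : Fin k, (if j = ⟨0, hk2⟩ then ψ else 0) = ψ
    rw [Finset.sum_ite_eq' univ, if_pos (Finset.mem_univ _)]
  refine nest_mono k (fun X hX => ?_) hnest
  obtain ⟨hBfin, hBpos, -⟩ := hX τ0 (Finset.mem_univ _)
  refine ⟨hBfin, ?_⟩
  obtain ⟨Bf, hBf⟩ : ∃ Bf : Finset (Fin k → HeightOneSpectrum (𝓞 F)), Bf = hBfin.toFinset := ⟨_, rfl⟩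
  have hmem : ∀ q, q ∈ Bf ↔ q ∈ (Box y X : Set (Fin k → HeightOneSpectrum (𝓞 F))) := by
    intro q
    rw [hBf, Set.Finite.mem_toFinset]
  have hnc : ∀ P : (Fin k → HeightOneSpectrum (𝓞 F)) → Prop,
      ({q ∈ (Box y X : Set (Fin k → HeightOneSpectrum (𝓞 F))) | P q}.ncard : ℝ) =
        ((Bf.filter P).card : ℝ) := by
    intro P
    rw [← Set.ncard_coe_finset (Bf.filter P)]
    congr 2
    ext q
    rw [Finset.coe_filter]
    show (q ∈ (Box y X : Set (Fin k → HeightOneSpectrum (𝓞 F))) ∧ P q) ↔ (q ∈ Bf ∧ P q)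
    rw [hmem]
  have hBc : ((Box y X : Set (Fin k → HeightOneSpectrum (𝓞 F))).ncard : ℝ) = (Bf.card : ℝ) := by
    rw [← Set.ncard_coe_finset Bf]
    congr 2
    ext q
    rw [Finset.mem_coe, hmem]
  rw [hBc] at hBpos
  -- the shares
  have hsh : ∀ τ : Tab f k, (1 / M - e) * Bf.card ≤ ((Bf.filter (Tb u π τ)).card : ℝ) ∧
      ((Bf.filter (Tb u π τ)).card : ℝ) ≤ (1 / M + e) * Bf.card := by
    intro τ
    have h1 := (hX τ (Finset.mem_univ _)).2.2
    rw [hBc, hnc, ← hM, abs_le] at h1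
    constructor
    · rw [← le_div_iff₀ hBpos]
      linarith [h1.1]
    · rw [← div_le_iff₀ hBpos]
      linarith [h1.2]
  have hdisj : ∀ s : Finset (Tab f k), Set.PairwiseDisjoint (s : Set (Tab f k))
      fun τ => Bf.filter (Tb u π τ) := by
    intro s τ _ τ' _ hne
    rw [Function.onFun, Finset.disjoint_filter]
    intro q _ h h'
    exact hne (tb_unique h h')
  have hcardU : ∀ s : Finset (Tab f k), ((s.biUnion fun τ => Bf.filter (Tb u π τ)).card : ℝ) =
      ∑ τ ∈ s, ((Bf.filter (Tb u π τ)).card : ℝ) := by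
    intro s
    rw [Finset.card_biUnion (fun τ hτ τ' hτ' hne => hdisj s hτ hτ' hne)]
    push_cast
    rfl
  have hinj : ∀ q ∈ Bf, Function.Injective q ∧ ∀ i, ¬ Sm y (q i) := by
    intro q hq
    have h1 := (hmem q).1 hq
    exact ⟨h1.1, fun i => (h1.2 i).1⟩
  -- the tables with sum ψ
  obtain ⟨Gd, hGd⟩ : ∃ Gd : Finset (Tab f k), Gd = univ.filter (fun τ : Tab f k => ∑ j, τ.1 j = ψ) :=
    ⟨_, rfl⟩
  have hGd1 : 1 ≤ (Gd.card : ℝ) := by
    have : 0 < Gd.card := Finset.card_pos.2 ⟨τ0, by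
      rw [hGd, Finset.mem_filter]
      exact ⟨Finset.mem_univ _, hτ0⟩⟩
    exact_mod_cast this
  have hG : (Gd.card : ℝ) * (1 / M - e) * Bf.card ≤
      ({q ∈ (Box y X : Set (Fin k → HeightOneSpectrum (𝓞 F))) | ∃ D, Fits y D0 q D}.ncard : ℝ) := by
    rw [hnc]
    have h1 : Gd.biUnion (fun τ => Bf.filter (Tb u π τ)) ⊆ Bf.filter fun q => ∃ D, Fits y D0 q D := by
      intro q hq
      rw [Finset.mem_biUnion] at hq
      obtain ⟨τ, hτ, hq⟩ := hq
      rw [Finset.mem_filter] at hq ⊢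
      refine ⟨hq.1, ?_⟩
      have h2 := hinj q hq.1
      rw [hGd, Finset.mem_filter] at hτ
      exact ((hSH1 F y f u r π g hb D0 ψ w hD0 hcls' k q h2.1 h2.2 τ hq.2).1).2 hτ.2
    have h2 : ((Gd.biUnion fun τ => Bf.filter (Tb u π τ)).card : ℝ) ≤
        ((Bf.filter fun q => ∃ D, Fits y D0 q D).card : ℝ) := by
      exact_mod_cast Finset.card_le_card h1
    refine le_trans ?_ h2
    rw [hcardU]
    calc (Gd.card : ℝ) * (1 / M - e) * Bf.card = ∑ _τ ∈ Gd, (1 / M - e) * Bf.card := by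
          rw [Finset.sum_const, nsmul_eq_mul]
          ring
      _ ≤ _ := Finset.sum_le_sum fun τ _ => (hsh τ).1
  have hGpos : 0 < ({q ∈ (Box y X : Set (Fin k → HeightOneSpectrum (𝓞 F))) |
      ∃ D, Fits y D0 q D}.ncard : ℝ) := by
    refine lt_of_lt_of_le ?_ hG
    have h1 : 0 < 1 / M - e := by
      have : 0 < 1 / M := by positivity
      linarith
    positivity
  refine ⟨hGpos, fun N hN => ?_⟩
  rw [← hμ]
  -- tables with at least N solutions
  obtain ⟨sol, hsol⟩ : ∃ sol : Tab f k → ℕ, ∀ τ, sol τ =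
      ((univ : Finset ((Fin f → ZMod 2) × Finset (Fin k))).filter
        (fun p => IsSol g w E τ p.1 p.2)).card := ⟨_, fun τ => rfl⟩
  obtain ⟨GN, hGN⟩ : ∃ GN : Finset (Tab f k), GN = Gd.filter fun τ => N ≤ sol τ := ⟨_, rfl⟩
  have hmark : (N : ℝ) * GN.card ≤ (μ + ε / 2) * Gd.card := by
    have h1 := hCOUNT f k hk2 g w ψ E
    rw [← hGd] at h1
    have h2 : (N : ℝ) * GN.card ≤ ∑ τ ∈ Gd, (((univ : Finset ((Fin f → ZMod 2) × Finset (Fin k))).filter
        (fun p => IsSol g w E τ p.1 p.2)).card : ℝ) := by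
      calc (N : ℝ) * GN.card = ∑ _τ ∈ GN, (N : ℝ) := by
            rw [Finset.sum_const, nsmul_eq_mul, mul_comm]
        _ ≤ ∑ τ ∈ GN, (((univ : Finset ((Fin f → ZMod 2) × Finset (Fin k))).filter
              (fun p => IsSol g w E τ p.1 p.2)).card : ℝ) := by
            refine Finset.sum_le_sum fun τ hτ => ?_
            rw [hGN, Finset.mem_filter] at hτ
            have h3 := hτ.2
            rw [hsol] at h3
            exact_mod_cast h3
        _ ≤ _ := by
            refine Finset.sum_le_sum_of_subset_of_nonneg ?_ fun τ _ _ => Nat.cast_nonneg _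
            rw [hGN]
            exact Finset.filter_subset _ _
    refine (h2.trans h1).trans ?_
    refine mul_le_mul_of_nonneg_right ?_ (by linarith)
    linarith
  have hH : ({q ∈ (Box y X : Set (Fin k → HeightOneSpectrum (𝓞 F))) |
      ∃ D, Fits y D0 q D ∧ Many A D N}.ncard : ℝ) ≤
      (GN.card : ℝ) * (1 / M + e) * Bf.card + M * e * Bf.card := by
    rw [hnc]
    have h1 : (Bf.filter fun q => ∃ D, Fits y D0 q D ∧ Many A D N) ⊆
        GN.biUnion (fun τ => Bf.filter (Tb u π τ)) ∪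
          (Bf \ (univ : Finset (Tab f k)).biUnion fun τ => Bf.filter (Tb u π τ)) := by
      intro q hq
      rw [Finset.mem_filter] at hq
      obtain ⟨hqB, D, hD, hmany⟩ := hq
      have h2 := hinj q hqB
      rw [Finset.mem_union]
      by_cases h3 : ∃ τ : Tab f k, Tb u π τ q
      · left
        obtain ⟨τ, hτ⟩ := h3
        rw [Finset.mem_biUnion]
        refine ⟨τ, ?_, ?_⟩
        · rw [hGN, Finset.mem_filter, hGd, Finset.mem_filter]
          refine ⟨⟨Finset.mem_univ _,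
            ((hSH1 F y f u r π g hb D0 ψ w hD0 hcls' k q h2.1 h2.2 τ hτ).1).1 ⟨D, hD⟩⟩, ?_⟩
          rw [hsol]
          exact hSH2 F y f u r π g hb A c hA D0 ψ w hD0 hcls' k q hk2 h2.1 h2.2 τ hτ E hE1 D N hD
            hmany
        · rw [Finset.mem_filter]
          exact ⟨hqB, hτ⟩
      · right
        rw [Finset.mem_sdiff]
        refine ⟨hqB, fun h4 => ?_⟩
        rw [Finset.mem_biUnion] at h4
        obtain ⟨τ, -, h5⟩ := h4
        rw [Finset.mem_filter] at h5
        exact h3 ⟨τ, h5.2⟩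
    have h2 : (((Bf.filter fun q => ∃ D, Fits y D0 q D ∧ Many A D N)).card : ℝ) ≤
        ((GN.biUnion (fun τ => Bf.filter (Tb u π τ))).card : ℝ) +
          ((Bf \ (univ : Finset (Tab f k)).biUnion fun τ => Bf.filter (Tb u π τ)).card : ℝ) := by
      exact_mod_cast (Finset.card_le_card h1).trans (Finset.card_union_le _ _)
    have h3 : ((GN.biUnion (fun τ => Bf.filter (Tb u π τ))).card : ℝ) ≤
        (GN.card : ℝ) * (1 / M + e) * Bf.card := by
      rw [hcardU]
      calc ∑ τ ∈ GN, ((Bf.filter (Tb u π τ)).card : ℝ) ≤ ∑ _τ ∈ GN, (1 / M + e) * Bf.card :=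
            Finset.sum_le_sum fun τ _ => (hsh τ).2
        _ = _ := by
            rw [Finset.sum_const, nsmul_eq_mul]
            ring
    have hsub : ((univ : Finset (Tab f k)).biUnion fun τ => Bf.filter (Tb u π τ)) ⊆ Bf := by
      intro q hq
      rw [Finset.mem_biUnion] at hq
      obtain ⟨τ, -, h5⟩ := hq
      exact (Finset.mem_filter.1 h5).1
    have h4 : ((Bf \ (univ : Finset (Tab f k)).biUnion fun τ => Bf.filter (Tb u π τ)).card : ℝ) ≤
        M * e * Bf.card := by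
      rw [Finset.cast_card_sdiff hsub, hcardU]
      have h5 : ∑ _τ : Tab f k, (1 / M - e) * (Bf.card : ℝ) ≤
          ∑ τ : Tab f k, ((Bf.filter (Tb u π τ)).card : ℝ) :=
        Finset.sum_le_sum fun τ _ => (hsh τ).1
      rw [Finset.sum_const, nsmul_eq_mul, Finset.card_univ, hMcard] at h5
      have h6 : M * ((1 / M - e) * (Bf.card : ℝ)) = Bf.card - M * e * Bf.card := by
        field_simp
      linarith
    linarith
  exact final hGd1 hBpos hM0 he0 he2 hμ0 hε hN hG hH hmark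

end Pool.Agent.Q14.LQS
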